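import Mathlib
import Pool.Agent.Q219.UZ.SSMain
import Pool.Agent.Q138.PS.VR

/-!
# Semisimplicity for `A × U`, for all abelian varieties `A` near almost every real shape, without exceptions

Fix dimensions `g i ≥ 1`. A real shape `α` consists of real numbers `α (i, t)`, `t < g i`; it stands for the real
polynomials `x ^ (g i) + ∑ α (i, t) x ^ t`. Let `q = p ^ a`. The Frobenius polynomial of an abelian variety of dimension
`g` over the field with `q` elements is `x ^ g * h (x + q / x)` with `h` monic and integral of degree `g`, and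
`h (√q x) / √q ^ g` has bounded coefficients. If the slopes are `s 0 ≤ s 1 ≤ …` and `1 - s 0, …`, the coefficient of `h` at
`x ^ t` is divisible by `p ^ E`, `E = ⌈a (s 0 + … + s (g - t - 1))⌉`. `NearShape` says that the coefficients of `h i` are at
distance at most `q ^ η * p ^ E` from the ones of the shape, `α (i, t) * √q ^ (g i - t)`, for all `i`.

The theorem: let `α` be a real shape outside of a set of measure zero. Then for ALL primes `p`, all families `s` of
non-supersingular symmetric Newton polygons (smallest slopes at most `σ < 1 / 2`) and all `η < (1 - 2 σ) / (6 ∑ g i)` there is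
no exception near `α` for large `a`: every family of isogeny classes in the Newton stratum over the field with `p ^ a`
elements which is near `α` has the property `Holds`. Here `Holds g s q F` is the theorem of `UniversalFactor` (the same text):
`SS_i (A × U)` for every variety `U` over `F_Q`, `Q` a power of `q`, and every `A` isogenous over `F_Q` to a product of powers
of the `A_i` follows from `SS_j (B × U)`, `j ≤ i`, for one `B`; and it is equivalent to `SS_i (U)` if the eigenvalues of `U`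
are narrow.

The second part: for the shapes of a nonempty open set the number of families in the stratum which are near the shape is at
least `(q ^ η / p) ^ (∑ g i)` for large `a`, so that the first part is not vacuous.
-/

set_option autoImplicit false

namespace Pool.Agent.Results.MP_16ef92_ag.AlmostEveryRealShape

open Polynomial Filter MeasureTheory Pool.Agent.Q219.NS Pool.Agent.Q219.NW Pool.Agent.Q219.UZ Pool.Agent.Q138.PS

/-- The theorem for the family of isogeny classes over the field with `q` elements with the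
Frobenius polynomials `F i`, of dimension `g i` and slopes `s i j`. -/
def Holds {κ : Type} (g : κ → ℕ) (s : ∀ i, Fin (g i) → ℚ) (q : ℕ) (F : κ → ℤ[X]) : Prop :=
  ∀ δ δ₂ : ℝ, 0 < δ → 0 < δ₂ → (∀ i, δ * g i ≤ devSum (s i)) → (∀ i, δ₂ * g i ≤ sqSum (s i)) →
    SemisimpleTimes δ q F ∧ SemisimpleTimesNarrow δ δ₂ q F

/-- **Semisimplicity for `A × U`, for all varieties `U`, for the abelian varieties `A` near almost every real shape.** -/
theorem result {κ : Type} [Fintype κ] [Nonempty κ] (g : κ → ℕ) (hg : ∀ i, 1 ≤ g i) :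
    -- the level is at most the dimension
    (∀ (Q d : ℕ) (H : ℕ → Type) [∀ m, AddCommGroup (H m)] [∀ m, Module ℂ (H m)]
      (G : ∀ m, H m →ₗ[ℂ] H m), IsCompactCohomology Q d G → PureLevelLE Q d G) ∧
    (∀ᵐ α : (Σ i, Fin (g i)) → ℝ, ∀ (p : ℕ) [Fact p.Prime] (s : ∀ i, Fin (g i) → ℚ), (∀ i, IsPolygon (s i)) →
      ∀ σ : ℚ, (∀ i (h : 0 < g i), s i ⟨0, h⟩ ≤ σ) → σ < 1 / 2 → ∀ η : ℝ, η * (6 * ∑ i, (g i : ℝ)) < 1 - 2 * σ →
      ∀ᶠ a : ℕ in atTop, ∀ F ∈ NewtonStratum g s p a, NearShape g s p a η α F → Holds g s (p ^ a) F) ∧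
    ∃ Ω : Set ((Σ i, Fin (g i)) → ℝ), IsOpen Ω ∧ Ω.Nonempty ∧ ∀ α ∈ Ω, ∀ (p : ℕ) [Fact p.Prime]
      (s : ∀ i, Fin (g i) → ℚ), (∀ i, IsPolygon (s i)) → ∀ σ : ℚ, (∀ i (h : 0 < g i), s i ⟨0, h⟩ ≤ σ) → σ < 1 / 2 →
      ∀ η : ℝ, 0 < η → η * (6 * ∑ i, (g i : ℝ)) < 1 - 2 * σ →
      ∀ᶠ a : ℕ in atTop, {F ∈ NewtonStratum g s p a | NearShape g s p a η α F}.Finite ∧
        (((p ^ a : ℕ) : ℝ) ^ η / p) ^ (∑ i, g i) ≤
          ({F ∈ NewtonStratum g s p a | NearShape g s p a η α F}.ncard : ℝ) := by
  obtain ⟨h1, h2⟩ := all_strata (ι := Unit) g hg (fun p _ s _ a F => Holds g s (p ^ a) F) (by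
    intro p _ s hs σ hσ hσ2 _
    obtain ⟨-, C, hC, h⟩ := count_moment p g hg s hs σ hσ hσ2
    refine ⟨C, hC, fun a ha => h a ha _ fun f hf hf2 δ δ₂ hδ0 hδ₂0 hδ hδ₂ => ?_⟩
    have hp : p.Prime := Fact.out
    have hq : 1 < p ^ a := Nat.one_lt_pow ha.ne' hp.one_lt
    exact ⟨semisimpleTimes (hf δ hδ) hδ0 hq, semisimpleTimesNarrow (hf δ hδ) (hf2 δ₂ hδ₂) hδ0 hδ₂0 hq⟩)
  refine ⟨fun Q d H _ _ G h => pureLevelLE_dim h, ?_, h2⟩
  filter_upwards [h1] with α hα
  intro p _ s hs σ hσ hσ2 η hη
  exact hα p s hs σ hσ hσ2 η hη ()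

end Pool.Agent.Results.MP_16ef92_ag.AlmostEveryRealShape
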