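import Mathlib
import Pool.Agent.Q219.UZ.SSMain

/-!
# Semisimplicity of Frobenius for products of abelian varieties and arbitrary varieties

Fix a prime `p`, a nonempty finite set `κ`, dimensions `g i ≥ 1` and, for each `i`, a symmetric
Newton polygon with slopes `s i j` and `1 - s i j` (`j < g i`, increasing in `j`, between `0` and
`1 / 2`, with integral break points: `IsPolygon (s i)`) whose smallest slope is at most `σ < 1 / 2`;
so it is any Newton polygon that is not the supersingular one. `NewtonStratum g s p a` is the set
of families of isogeny classes of abelian varieties `A_i` of dimension `g i` over the field with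
`p ^ a` elements having these Newton polygons (by the theorem of Honda and Tate it consists of
families of characteristic polynomials of Frobenius). Let `devSum (s i)`, `sqSum (s i)` be the sums of
the numbers `1 - 2 s i j` and of their squares, and let `δ`, `δ₂ > 0` be numbers such that
`δ g i ≤ devSum (s i)` and `δ₂ g i ≤ sqSum (s i)` for all `i`. So `δ = δ₂ = 1` if the `A_i` are
ordinary.

We prove that the number of elements of `NewtonStratum g s p a` tends to infinity with `a`, and that
for all members, except for at most

  `C * a * p ^ (- a (1 - 2 σ) / 6) * |NewtonStratum g s p a|`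

(`C` depends on `p`, `g`, `s`, `σ` only), the following is true.

Let `k` be the field with `Q = p ^ (a s')` elements, for any `s' > 0`, and let `𝒜` be the class of the
abelian varieties `A` over `k` which are isogenous to a product of powers of the `A_i`, of any
dimension. Let `U` be **any** variety over `k` (singular, not proper). Since homology is dual to
cohomology with compact supports, `SS_i (U)` is the statement that the eigenvalue `Q ^ i` of
Frobenius on `H_c ^ (2 i) (U)` is semisimple.

* (`SemisimpleTimes`) Let `e` be a number such that the slopes of the eigenvalues of weight `m` on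
  `H_c ^ m (U)` are between `(m - e) / 2` and `(m + e) / 2`; `e = dim U` is always possible, by a theorem
  of Deligne (this is the first part of the statement). Let `n` be a number with `(n + 1) δ > e`, so
  `n = dim U` if the `A_i` are ordinary, and let `B` be an abelian variety in which all `A_i` occur with
  multiplicity at least `n`, such as the `n`-th power of the product of the `A_i`. Then **`SS_i (A × U)`
  holds for all `A` in `𝒜`, of arbitrary dimension, and all `i` if (and only if) `SS_i (B × U)` holds for
  all `i`**; more precisely `SS_i (A × U)` follows from `SS_j (B × U)` for all `j ≤ i`. Nothing is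
  assumed on the Frobenius eigenvalues of `U`.
* (`SemisimpleTimesNarrow`) Suppose that for each `m` each eigenvalue `ρ` of weight `m` of Frobenius on
  `H_c ^ m (U)` is semisimple, or satisfies one of the following conditions, with `b = 2` if `m` is even
  and `b = 1` if `m` is odd: the slopes of `ρ` are between `(m - e) / 2` and `(m + e) / 2` for some
  `e < b δ`; or the mean of `(2 λ - m) ^ 2`, `λ` the slopes of the conjugates of `ρ`, is smaller than
  `b δ₂`. Then **`SS_i (A × U)` holds for all `i` if and only if `SS_i (U)` holds for all `i`**, for all `A`
  in `𝒜`. For example let `U` be a smooth projective surface, and `A_i` ordinary. The condition is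
  satisfied for `m ≠ 2` by a theorem of Weil, and for `m = 2` if the slopes of each `ρ` are different
  from `0`, `2`, or if the mean of `(λ - 1) ^ 2` is smaller than `1 / 2` for each `ρ`. So for these surfaces
  only the eigenvalue `Q` on `H ^ 2 (U)` matters, and its semisimplicity follows from the conjecture of
  Tate for `U`; nothing is assumed on the semisimplicity of the other eigenvalues on `H ^ 2 (U)`,
  although they can occur, multiplied with eigenvalues of `A`, in the statements for `A × U`.

Although Frobenius is semisimple on the cohomology of `A` this is not formal: the eigenvalue `Q ^ i`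
of `A × U` involves all eigenvalues `ρ` of `U` for which `ρ α` is a power of `Q` for some product `α`
of eigenvalues of `A`, and for large `A` there can be many of them. The starting files in this
folder assume that the conjugates of the eigenvalues of `U` have small rank over a fixed number
field; here the exceptional set is independent of `U`.

The proof. A product `α` of roots `z j` of the Frobenius polynomials with `α ρ = Q ^ i` is a relation.
One removes the pairs of roots with product `Q`. The Galois group contains the automorphisms which
replace one of the remaining `r` roots by its complex conjugate (this is what the sieve provides),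
so some conjugate of the relation has the largest possible `p`-adic valuation, which gives `r δ ≤ e`;
and the valuations of the different `z j` are orthogonal as functions on the Galois group, which
gives `r δ₂ ≤` the mean of `(2 λ - m) ^ 2`. If `r ≤ n` the reduced product is an eigenvalue on
`⋀ ^ r H ^ 1 (B)`.
-/

set_option autoImplicit false

namespace Pool.Agent.Results.MP_16ef92_ag.UniversalFactor

open Polynomial Pool.Agent.Q219.NS Pool.Agent.Q219.NW Pool.Agent.Q219.UZ

/-- The theorem for the family of isogeny classes over the field with `q` elements with the
Frobenius polynomials `F i`, of dimension `g i` and slopes `s i j`. -/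
def Holds {κ : Type} (g : κ → ℕ) (s : ∀ i, Fin (g i) → ℚ) (q : ℕ) (F : κ → ℤ[X]) : Prop :=
  ∀ δ δ₂ : ℝ, 0 < δ → 0 < δ₂ → (∀ i, δ * g i ≤ devSum (s i)) → (∀ i, δ₂ * g i ≤ sqSum (s i)) →
    SemisimpleTimes δ q F ∧ SemisimpleTimesNarrow δ δ₂ q F

/-- **Semisimplicity for `A × U`, for all varieties `U`, for the abelian varieties `A` outside of a
thin subset of a Newton stratum.** -/
theorem result :
    -- the level is at most the dimension
    (∀ (Q d : ℕ) (H : ℕ → Type) [∀ m, AddCommGroup (H m)] [∀ m, Module ℂ (H m)]
      (G : ∀ m, H m →ₗ[ℂ] H m), IsCompactCohomology Q d G → PureLevelLE Q d G) ∧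
    ∀ {κ : Type} [Fintype κ] [Nonempty κ] (p : ℕ) [Fact p.Prime]
      -- dimensions and Newton polygons
      (g : κ → ℕ) (_ : ∀ i, 1 ≤ g i) (s : ∀ i, Fin (g i) → ℚ) (_ : ∀ i, IsPolygon (s i))
      -- the smallest slopes
      (σ : ℚ) (_ : ∀ i (h : 0 < g i), s i ⟨0, h⟩ ≤ σ) (_ : σ < 1 / 2),
      (∀ N : ℕ, ∃ a₀ : ℕ, ∀ a, a₀ ≤ a →
        (NewtonStratum g s p a).Finite ∧ N ≤ (NewtonStratum g s p a).ncard) ∧
      ∃ C : ℝ, 0 < C ∧ ∀ a : ℕ, 0 < a →
        ({F ∈ NewtonStratum g s p a | ¬ Holds g s (p ^ a) F}.ncard : ℝ) ≤
          C * (a * (p : ℝ) ^ (-((a : ℝ) * (1 - 2 * σ) / 6))) *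
            ((NewtonStratum g s p a).ncard : ℝ) := by
  refine ⟨fun Q d H _ _ G h => pureLevelLE_dim h, ?_⟩
  intro κ _ _ p _ g hg s hs σ hσ hσ2
  obtain ⟨h1, C, hC, h2⟩ := count_moment p g hg s hs σ hσ hσ2
  refine ⟨h1, C, hC, fun a ha => h2 a ha _ fun f hf hf2 δ δ₂ hδ0 hδ₂0 hδ hδ₂ => ?_⟩
  have hp : p.Prime := Fact.out
  have hq : 1 < p ^ a := Nat.one_lt_pow ha.ne' hp.one_lt
  exact ⟨semisimpleTimes (hf δ hδ) hδ0 hq, semisimpleTimesNarrow (hf δ hδ) (hf2 δ₂ hδ₂) hδ0 hδ₂0 hq⟩

end Pool.Agent.Results.MP_16ef92_ag.UniversalFactor
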